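import Mathlib

/-!
# The Cairns-type 2-complex has a straight-line realisation in `ℝ⁴` (MP_cc703c_co)

The complex `C` with 10 vertices, 25 triangles and the 4 further edges `A₀A₁, CD₁, CD₂, CD₃` is
realised in `ℝ⁴` with integer coordinates in `{-3,…,3}`: the ten points are in general position,
and each of the 67 pairs of vertex-disjoint triangles is separated by one of six linear functionals.
-/

namespace Pool.Agent.Results.MP_cc703c_co.EmbedsInR4

/-! ### The abstract complex -/

/-- The ten vertices. -/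
abbrev V := Fin 10

abbrev A0 : V := 0
abbrev A1 : V := 1
abbrev B1 : V := 2
abbrev B2 : V := 3
abbrev B3 : V := 4
abbrev B4 : V := 5
abbrev C : V := 6
abbrev D1 : V := 7
abbrev D2 : V := 8
abbrev D3 : V := 9

/-- The 25 triangles. -/
def triangles : List (Finset V) :=
  [{A0, B1, B2}, {A0, B2, B3}, {A0, B3, B1}, {A1, B1, B2}, {A1, B2, B4}, {A1, B4, B3},
   {A1, B3, B1}, {C, B2, B3}, {C, B3, B4}, {C, B4, B2},
   {C, A0, B1}, {C, A0, B2}, {C, A0, B3}, {C, A1, B1}, {C, A1, B2}, {C, A1, B3}, {C, A1, B4},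
   {C, B1, B2}, {C, B1, B3},
   {D1, D2, B3}, {D2, D3, B1}, {D3, D1, B2}, {B1, B2, D3}, {B2, B3, D1}, {B3, B1, D2}]

/-- The four further edges. -/
def extraEdges : List (Finset V) := [{A0, A1}, {C, D1}, {C, D2}, {C, D3}]

/-- The simplices of the complex: the nonempty sets of vertices contained in one of the triangles
or in one of the four further edges. -/
def IsSimplex (s : Finset V) : Prop :=
  s.Nonempty ∧ ∃ F ∈ triangles ++ extraEdges, s ⊆ F

/-- `C` is realised by a geometric simplicial complex in `ℝ^m`: there are a geometric simplicial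
complex `K` and an injective assignment of points of `ℝ^m` to the ten vertices under which the faces
of `K` (given by their vertex sets) correspond exactly to the simplices of `C`. -/
def Realizable (m : ℕ) : Prop :=
  ∃ (K : Geometry.SimplicialComplex ℝ (Fin m → ℝ)) (v : V → Fin m → ℝ), Function.Injective v ∧
    ∀ t : Finset (Fin m → ℝ), t ∈ K.faces ↔ ∃ s : Finset V, IsSimplex s ∧ s.image v = t

/-- The least dimension of a realisation. -/
noncomputable def b : ℕ := sInf {m | Realizable m}

/-! ### Coordinates -/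

/-- The coordinates of the ten points. -/
def pt : V → Fin 4 → ℤ :=
  ![![-1, 3, 1, -2], ![2, 2, -3, 2], ![-2, 0, 3, 0], ![2, 3, 0, 0], ![-3, -1, -1, -3],
    ![-2, 0, -3, -2], ![3, -3, 3, -1], ![0, 2, 0, -1], ![0, -3, 0, 1], ![1, -1, 3, 2]]

/-- The six separating functionals. -/
def fn : Fin 6 → Fin 4 → ℤ :=
  ![![-5, -1, 3, 5], ![-2, -5, -4, 0], ![0, -2, -4, -5], ![0, 0, -1, 1], ![-1, -1, 0, 3],
    ![-3, -1, 1, 4]]

/-- The value of a functional at a point. -/
def val (w : Fin 6) (i : V) : ℤ :=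
  fn w 0 * pt i 0 + fn w 1 * pt i 1 + fn w 2 * pt i 2 + fn w 3 * pt i 3

lemma separated : ∀ A ∈ triangles, ∀ B ∈ triangles, Disjoint A B →
    ∃ w : Fin 6, (∀ i ∈ A, ∀ j ∈ B, val w i < val w j) ∨ (∀ i ∈ A, ∀ j ∈ B, val w j < val w i) := by
  decide +kernel

/-- The `4 × 4` determinant. -/
def d4 (a b c d : Fin 4 → ℤ) : ℤ :=
  (a 0 * b 1 - a 1 * b 0) * (c 2 * d 3 - c 3 * d 2) -
  (a 0 * b 2 - a 2 * b 0) * (c 1 * d 3 - c 3 * d 1) +
  (a 0 * b 3 - a 3 * b 0) * (c 1 * d 2 - c 2 * d 1) +
  (a 1 * b 2 - a 2 * b 1) * (c 0 * d 3 - c 3 * d 0) -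
  (a 1 * b 3 - a 3 * b 1) * (c 0 * d 2 - c 2 * d 0) +
  (a 2 * b 3 - a 3 * b 2) * (c 0 * d 1 - c 1 * d 0)

/-- The orientation of five points. -/
def d5 (a b c d e : Fin 4 → ℤ) : ℤ :=
  d4 b c d e - d4 a c d e + d4 a b d e - d4 a b c e + d4 a b c d

lemma general_position : ∀ a b : V, a < b → ∀ c, b < c → ∀ d, c < d → ∀ e, d < e →
    d5 (pt a) (pt b) (pt c) (pt d) (pt e) ≠ 0 := by
  decide +kernel

/-! ### From integers to reals -/

/-- The ten points of `ℝ⁴`. -/
def rpt (i : V) : Fin 4 → ℝ := fun k => (pt i k : ℝ)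

lemma indep5 (g : Fin 5 → V) (h : d5 (pt (g 0)) (pt (g 1)) (pt (g 2)) (pt (g 3)) (pt (g 4)) ≠ 0) :
    AffineIndependent ℝ (fun i => rpt (g i)) := by
  rw [affineIndependent_iff]
  intro s w hw0 hw1
  classical
  set M : Matrix (Fin 5) (Fin 5) ℝ := Matrix.of fun i j =>
    ![1, rpt (g i) 0, rpt (g i) 1, rpt (g i) 2, rpt (g i) 3] j with hM
  have hdet : M.det ≠ 0 := by
    have e : M.det = ((d5 (pt (g 0)) (pt (g 1)) (pt (g 2)) (pt (g 3)) (pt (g 4)) : ℤ) : ℝ) := by
      rw [hM]
      simp [Matrix.det_succ_row_zero, Fin.sum_univ_succ, rpt, d5, d4, Fin.succAbove]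
      ring
    rw [e]
    exact_mod_cast h
  set u : Fin 5 → ℝ := fun i => if i ∈ s then w i else 0 with hu
  have hu0 : Matrix.vecMul u M = 0 := by
    funext j
    have hsum : ∀ f : Fin 5 → ℝ, ∑ i, u i * f i = ∑ i ∈ s, w i * f i := by
      intro f
      rw [← Finset.sum_filter_add_sum_filter_not Finset.univ (fun i => i ∈ s)]
      rw [Finset.sum_eq_zero (s := Finset.univ.filter (fun i => ¬ i ∈ s))]
      · rw [add_zero, Finset.filter_mem_eq_inter, Finset.univ_inter]
        refine Finset.sum_congr rfl fun i hi => by simp [hu, hi]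
      · intro i hi
        simp only [Finset.mem_filter, Finset.mem_univ, true_and] at hi
        simp [hu, hi]
    have hcoord : ∀ k : Fin 4, ∑ i ∈ s, w i * rpt (g i) k = 0 := by
      intro k
      have := congrFun hw1 k
      simpa [Finset.sum_apply] using this
    show ∑ i, u i * M i j = 0
    rw [hsum]
    fin_cases j
    · simpa [hM] using hw0
    · simpa [hM] using hcoord 0
    · simpa [hM] using hcoord 1
    · simpa [hM] using hcoord 2
    · simpa [hM] using hcoord 3
  have hu1 := Matrix.eq_zero_of_vecMul_eq_zero hdet hu0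
  intro i hi
  have := congrFun hu1 i
  simpa [hu, hi] using this

lemma pt_injective : ∀ i j : V, pt i = pt j → i = j := by
  decide +kernel

lemma rpt_injective : Function.Injective rpt := by
  intro i j h
  apply pt_injective
  funext k
  have := congrFun h k
  simpa [rpt] using this

/-- Any at most five of the points are affinely independent. -/
lemma indep (s : Finset V) (hs : s.card ≤ 5) :
    AffineIndependent ℝ ((↑) : ↥(Finset.image rpt s) → (Fin 4 → ℝ)) := by
  classical
  obtain ⟨t, hst, ht⟩ := Finset.exists_superset_card_eq hs (by simp : 5 ≤ Fintype.card V)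
  obtain ⟨g, hmono, hrange⟩ : ∃ g : Fin 5 → V, StrictMono g ∧ Set.range g = t :=
    ⟨fun i => t.orderEmbOfFin ht i, (t.orderEmbOfFin ht).strictMono,
      Finset.range_orderEmbOfFin t ht⟩
  have h1 := indep5 g (general_position _ _ (hmono (by decide)) _ (hmono (by decide)) _
    (hmono (by decide)) _ (hmono (by decide)))
  have h2 := h1.range
  refine h2.mono ?_
  intro x hx
  rw [Finset.coe_image] at hx
  obtain ⟨i, hi, rfl⟩ := hx
  have h3 : i ∈ Set.range g := by
    rw [hrange]
    exact hst hi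
  obtain ⟨j, rfl⟩ := h3
  exact ⟨j, rfl⟩

/-- The linear functional on `ℝ⁴`. -/
def lin (w : Fin 6) : (Fin 4 → ℝ) →ₗ[ℝ] ℝ where
  toFun x := fn w 0 * x 0 + fn w 1 * x 1 + fn w 2 * x 2 + fn w 3 * x 3
  map_add' x y := by simp; ring
  map_smul' a x := by simp; ring

lemma lin_rpt (w : Fin 6) (i : V) : lin w (rpt i) = (val w i : ℝ) := by
  simp [lin, rpt, val]

lemma disjoint_hulls {A B : Finset V} (w : Fin 6) (h : ∀ i ∈ A, ∀ j ∈ B, val w i < val w j)
    (hA : A.Nonempty) : Disjoint (convexHull ℝ ((A.image rpt : Finset _) : Set (Fin 4 → ℝ)))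
      (convexHull ℝ ((B.image rpt : Finset _) : Set (Fin 4 → ℝ))) := by
  classical
  obtain ⟨i₀, hi₀, hmax⟩ := A.exists_max_image (val w) hA
  rw [Set.disjoint_left]
  intro x hxA hxB
  have h1 : convexHull ℝ ((A.image rpt : Finset _) : Set (Fin 4 → ℝ)) ⊆
      {y | lin w y ≤ val w i₀} := by
    apply convexHull_min
    · intro y hy
      rw [Finset.coe_image] at hy
      obtain ⟨i, hi, rfl⟩ := hy
      show lin w (rpt i) ≤ _
      rw [lin_rpt]
      exact_mod_cast hmax i hi
    · exact convex_halfSpace_le (lin w).isLinear _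
  have h2 : convexHull ℝ ((B.image rpt : Finset _) : Set (Fin 4 → ℝ)) ⊆
      {y | (val w i₀ : ℝ) < lin w y} := by
    apply convexHull_min
    · intro y hy
      rw [Finset.coe_image] at hy
      obtain ⟨i, hi, rfl⟩ := hy
      show _ < lin w (rpt i)
      rw [lin_rpt]
      exact_mod_cast h i₀ hi₀ i hi
    · exact convex_halfSpace_gt (lin w).isLinear _
  have h3 : (val w i₀ : ℝ) < lin w x := h2 hxB
  have h4 : lin w x ≤ val w i₀ := h1 hxA
  linarith

lemma card_facet : ∀ F ∈ triangles, F.card = 3 := by decide +kernel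

lemma card_edge : ∀ F ∈ extraEdges, F.card = 2 := by decide +kernel

/-- Two simplices with together at least six vertices lie in disjoint triangles. -/
lemma six {s t : Finset V} (hs : IsSimplex s) (ht : IsSimplex t) (h : 5 < (s ∪ t).card) :
    s ∈ triangles ∧ t ∈ triangles ∧ Disjoint s t := by
  obtain ⟨-, F, hF, hsF⟩ := hs
  obtain ⟨-, G, hG, htG⟩ := ht
  have h1 := Finset.card_union_le s t
  have hFc : F ∈ triangles ∧ F.card = 3 ∨ F.card = 2 := by
    rw [List.mem_append] at hF
    rcases hF with hF | hF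
    · exact Or.inl ⟨hF, card_facet F hF⟩
    · exact Or.inr (card_edge F hF)
  have hGc : G ∈ triangles ∧ G.card = 3 ∨ G.card = 2 := by
    rw [List.mem_append] at hG
    rcases hG with hG | hG
    · exact Or.inl ⟨hG, card_facet G hG⟩
    · exact Or.inr (card_edge G hG)
  have hsc := Finset.card_le_card hsF
  have htc := Finset.card_le_card htG
  have hs3 : s.card = 3 ∧ t.card = 3 ∧ F.card = 3 ∧ G.card = 3 := by
    rcases hFc with ⟨_, h2⟩ | h2 <;> rcases hGc with ⟨_, h3⟩ | h3 <;> omega
  have hsF' : s = F := Finset.eq_of_subset_of_card_le hsF (by omega)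
  have htG' : t = G := Finset.eq_of_subset_of_card_le htG (by omega)
  refine ⟨?_, ?_, ?_⟩
  · rcases hFc with ⟨h2, _⟩ | h2
    · rw [hsF']; exact h2
    · omega
  · rcases hGc with ⟨h2, _⟩ | h2
    · rw [htG']; exact h2
    · omega
  · rw [← Finset.card_union_eq_card_add_card]
    omega

/-- The geometric realisation in `ℝ⁴`. -/
def complex : Geometry.SimplicialComplex ℝ (Fin 4 → ℝ) := by
  classical
  exact
  { faces := {t | ∃ s : Finset V, IsSimplex s ∧ s.image rpt = t}
    isRelLowerSet_faces := by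
      rintro _ ⟨s, hs, rfl⟩
      refine ⟨hs.1.image _, ?_⟩
      intro t ht htne
      have ht : t ⊆ s.image rpt := ht
      obtain ⟨s', hs', rfl⟩ := Finset.subset_image_iff.mp ht
      have hne : s'.Nonempty := by simpa using htne
      obtain ⟨-, F, hF, hsF⟩ := hs
      exact ⟨s', ⟨hne, F, hF, (by exact_mod_cast hs' : s' ⊆ s).trans hsF⟩, rfl⟩
    indep := by
      rintro _ ⟨s, ⟨-, F, hF, hsF⟩, rfl⟩
      apply indep
      have h1 := Finset.card_le_card hsF
      rw [List.mem_append] at hF
      rcases hF with hF | hF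
      · rw [card_facet F hF] at h1; omega
      · rw [card_edge F hF] at h1; omega
    inter_subset_convexHull := by
      rintro _ _ ⟨s, hs, rfl⟩ ⟨t, ht, rfl⟩
      by_cases hcard : (s ∪ t).card ≤ 5
      · have h1 := indep (s ∪ t) hcard
        have h2 := h1.convexHull_inter (t₁ := s.image rpt) (t₂ := t.image rpt)
          (Finset.image_subset_image Finset.subset_union_left)
          (Finset.image_subset_image Finset.subset_union_right)
        rw [← h2]
      · obtain ⟨hs3, ht3, hd⟩ := six hs ht (by omega)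
        obtain ⟨w, hw | hw⟩ := separated s hs3 t ht3 hd
        · have h3 := disjoint_hulls w hw hs.1
          rw [Set.disjoint_iff_inter_eq_empty.mp h3]
          exact Set.empty_subset _
        · have h3 := disjoint_hulls w (fun j hj i hi => hw i hi j hj) ht.1
          rw [Set.inter_comm, Set.disjoint_iff_inter_eq_empty.mp h3]
          exact Set.empty_subset _ }

/-- **The Cairns-type complex `C` has a straight-line realisation in `ℝ⁴`**; in particular
`b(C) ≤ 4`. (It is known that `b(C) ≥ 4`, so `b(C) = 4`.) -/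
theorem result : Realizable 4 ∧ b ≤ 4 := by
  have h : Realizable 4 := by
    refine ⟨complex, rpt, rpt_injective, fun t => ?_⟩
    exact Iff.rfl
  exact ⟨h, Nat.sInf_le h⟩

end Pool.Agent.Results.MP_cc703c_co.EmbedsInR4
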